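import Pool.Agent.E8helper30.MC.Stm

/-! Piece UC of project MC (helper30), MP_d8224a_co. -/

set_option autoImplicit false

namespace Pool.Agent.E8helper14.MC

open scoped Classical
open Pool.Agent.E8helper30.MC

theorem card_part {G : Type} [AddCommGroup G] (C W E : Finset G) :
    (C.filter fun c => ∃ g ∈ E, g - c ∈ W ∧ ∀ w ∈ W, g - w ∈ C → g - w = c).card ≤ E.card := by
  have h : ∀ c : G, ∃ g : G, (c ∈ C ∧ ∃ g ∈ E, g - c ∈ W ∧ ∀ w ∈ W, g - w ∈ C → g - w = c) →
      g ∈ E ∧ g - c ∈ W ∧ ∀ w ∈ W, g - w ∈ C → g - w = c := by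
    intro c
    by_cases hc : c ∈ C ∧ ∃ g ∈ E, g - c ∈ W ∧ ∀ w ∈ W, g - w ∈ C → g - w = c
    · obtain ⟨_, g, h1, h2⟩ := hc
      exact ⟨g, fun _ => ⟨h1, h2⟩⟩
    · exact ⟨0, fun h => absurd h hc⟩
  choose f hf using h
  apply Finset.card_le_card_of_injOn f
  · intro c hc
    exact (hf c (Finset.mem_filter.1 hc)).1
  · intro c hc c' hc' hcc
    have hc1 := Finset.mem_filter.1 (Finset.mem_coe.1 hc)
    have hc2 := Finset.mem_filter.1 (Finset.mem_coe.1 hc')
    obtain ⟨_, h1, _⟩ := hf c hc1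
    obtain ⟨_, _, h2⟩ := hf c' hc2
    rw [← hcc] at h2
    have h3 := h2 _ h1 (by rw [sub_sub_cancel]; exact hc1.1)
    rwa [sub_sub_cancel] at h3

theorem t_UC (hTR : S_TR) : S_UC := by
  intro G _ I D C φ ℓ K m v hF hC hK hB1 hB2 W hW
  obtain ⟨h1, h2, h3, _⟩ := hF
  set S1 := (W ∩ D).filter (fun w => φ w ≤ 0) with hS1
  set S2 := (W ∩ D).filter (fun w => 0 < φ w) with hS2
  obtain ⟨T1, hT1, hT1c, hT1a⟩ := hTR G S1 φ K
  obtain ⟨T2, hT2, hT2c, hT2a⟩ := hTR G S2 (fun w => -φ w) K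
  have m1 : ∀ w ∈ T1, w ∈ W ∧ w ∈ D ∧ φ w ≤ 0 := by
    intro w hw
    have := Finset.mem_filter.1 (hT1 hw)
    exact ⟨(Finset.mem_inter.1 this.1).1, (Finset.mem_inter.1 this.1).2, this.2⟩
  have m2 : ∀ w ∈ T2, w ∈ W ∧ w ∈ D ∧ 0 < φ w := by
    intro w hw
    have := Finset.mem_filter.1 (hT2 hw)
    exact ⟨(Finset.mem_inter.1 this.1).1, (Finset.mem_inter.1 this.1).2, this.2⟩
  have hT1D : T1 ⊆ D := fun w hw => (m1 w hw).2.1
  have hT2D : T2 ⊆ D := fun w hw => (m2 w hw).2.1
  have hTW : ∀ w ∈ T1 ∪ T2, w ∈ W := by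
    intro w hw
    rcases Finset.mem_union.1 hw with h | h
    · exact (m1 w h).1
    · exact (m2 w h).1
  -- the truncated sets see everything at the points of `Jun`
  have hA : ∀ g ∈ Jun I T1 T2 φ ℓ K, ∀ w ∈ W, g - w ∈ C → w ∈ T1 ∪ T2 := by
    intro g hg w hw hgw
    obtain ⟨hgI, hg1, hg2⟩ := Finset.mem_filter.1 hg
    obtain ⟨hwD, ha, hb⟩ := h2 g hgI w (hC hgw)
    rw [Finset.mem_union]
    by_cases hw0 : φ w ≤ 0
    · left
      rcases hT1a (φ g - ℓ) with h | ⟨hc, h⟩
      · exact h (Finset.mem_filter.2 ⟨Finset.mem_filter.2 ⟨Finset.mem_inter.2 ⟨hw, hwD⟩, hw0⟩, ha⟩)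
      · exfalso
        have : T1.filter (fun w => φ g - ℓ < φ w) = T1 :=
          Finset.filter_true_of_mem fun w hw => (Finset.mem_filter.1 (h hw)).2
        rw [this, hc] at hg1
        exact lt_irrefl _ hg1
    · right
      rcases hT2a (-φ g - 1) with h | ⟨hc, h⟩
      · exact h (Finset.mem_filter.2 ⟨Finset.mem_filter.2 ⟨Finset.mem_inter.2 ⟨hw, hwD⟩,
          not_le.1 hw0⟩, by omega⟩)
      · exfalso
        have : T2.filter (fun w => φ w ≤ φ g) = T2 :=
          Finset.filter_true_of_mem fun w hw => by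
            have := (Finset.mem_filter.1 (h hw)).2
            omega
        rw [this, hc] at hg2
        exact lt_irrefl _ hg2
  -- the first part
  set F := C.filter (fun c => ∃ g ∈ Jun I T1 T2 φ ℓ K, Ag I (T1 ∪ T2) g ∩ C = {c}) with hFdef
  have hFc : F.card < v := by
    by_contra hcon
    apply hB1 T1 hT1D T2 hT2D hT1c hT2c
    refine Finset.mem_filter.2 ⟨Finset.mem_powerset.2 hC, ?_, not_lt.1 hcon⟩
    intro g hg
    obtain ⟨w, hw, hgw⟩ := hW g (Finset.mem_filter.1 hg).1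
    refine ⟨g - w, Finset.mem_inter.2 ⟨Finset.mem_filter.2 ⟨hC hgw, ?_⟩, hgw⟩⟩
    rw [sub_sub_cancel]
    exact hA g hg w hw hgw
  -- the other parts
  set E1 := I.filter (fun g => K ≤ (T1.filter fun w => φ g - ℓ < φ w).card ∧
    (Ag I T1 g ∩ C).card ≤ 1) with hE1
  set E2 := I.filter (fun g => K ≤ (T2.filter fun w => φ w ≤ φ g).card ∧
    (Ag I T2 g ∩ C).card ≤ 1) with hE2
  have hE1c : E1.card ≤ m * K * K := by
    by_cases hT : T1.card = K
    · have hb := hB2 T1 hT1D hT
      by_contra hcon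
      apply hb
      refine Finset.mem_filter.2 ⟨Finset.mem_powerset.2 hC, ?_⟩
      refine (not_le.1 hcon).le.trans (Finset.card_le_card ?_)
      intro g hg
      obtain ⟨hgI, hg1, hg2⟩ := Finset.mem_filter.1 hg
      refine Finset.mem_filter.2 ⟨Finset.mem_filter.2 ⟨hgI, ?_⟩, hg2⟩
      have heq : T1.filter (fun w => φ g - ℓ < φ w) = T1 :=
        Finset.eq_of_subset_of_card_le (Finset.filter_subset _ _) (by rw [hT]; exact hg1)
      intro w hw
      have hw' : w ∈ T1.filter (fun w => φ g - ℓ < φ w) := by rw [heq]; exact hw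
      exact h3 g hgI w (hT1D hw) (Finset.mem_filter.1 hw').2
        ((m1 w hw).2.2.trans (h1 g hgI).1)
    · have : E1 = ∅ := by
        rw [Finset.eq_empty_iff_forall_notMem]
        intro g hg
        obtain ⟨_, hg1, _⟩ := Finset.mem_filter.1 hg
        exact hT (le_antisymm hT1c (hg1.trans (Finset.card_filter_le _ _)))
      rw [this, Finset.card_empty]
      exact Nat.zero_le _
  have hE2c : E2.card ≤ m * K * K := by
    by_cases hT : T2.card = K
    · have hb := hB2 T2 hT2D hT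
      by_contra hcon
      apply hb
      refine Finset.mem_filter.2 ⟨Finset.mem_powerset.2 hC, ?_⟩
      refine (not_le.1 hcon).le.trans (Finset.card_le_card ?_)
      intro g hg
      obtain ⟨hgI, hg1, hg2⟩ := Finset.mem_filter.1 hg
      refine Finset.mem_filter.2 ⟨Finset.mem_filter.2 ⟨hgI, ?_⟩, hg2⟩
      have heq : T2.filter (fun w => φ w ≤ φ g) = T2 :=
        Finset.eq_of_subset_of_card_le (Finset.filter_subset _ _) (by rw [hT]; exact hg1)
      intro w hw
      have hw' : w ∈ T2.filter (fun w => φ w ≤ φ g) := by rw [heq]; exact hw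
      have e1 := (h1 g hgI).2
      have e2 := (m2 w hw).2.2
      exact h3 g hgI w (hT2D hw) (by omega) (Finset.mem_filter.1 hw').2
    · have : E2 = ∅ := by
        rw [Finset.eq_empty_iff_forall_notMem]
        intro g hg
        obtain ⟨_, hg1, _⟩ := Finset.mem_filter.1 hg
        exact hT (le_antisymm hT2c (hg1.trans (Finset.card_filter_le _ _)))
      rw [this, Finset.card_empty]
      exact Nat.zero_le _
  -- a point that is not in `Jun` sees at most one element of `C`
  have hone : ∀ T : Finset G, (∀ w ∈ T, w ∈ W) → ∀ g c : G,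
      (∀ w ∈ W, g - w ∈ C → g - w = c) → (Ag I T g ∩ C).card ≤ 1 := by
    intro T hT g c hu
    rw [Finset.card_le_one]
    have : ∀ x ∈ Ag I T g ∩ C, x = c := by
      intro x hx
      obtain ⟨hx1, hx2⟩ := Finset.mem_inter.1 hx
      have hx3 := (Finset.mem_filter.1 hx1).2
      have := hu (g - x) (hT _ hx3) (by rw [sub_sub_cancel]; exact hx2)
      rwa [sub_sub_cancel] at this
    intro a ha b hb
    rw [this a ha, this b hb]
  have hsub : UC I C W ⊆ (F ∪
      (C.filter fun c => ∃ g ∈ E1, g - c ∈ W ∧ ∀ w ∈ W, g - w ∈ C → g - w = c)) ∪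
      (C.filter fun c => ∃ g ∈ E2, g - c ∈ W ∧ ∀ w ∈ W, g - w ∈ C → g - w = c) := by
    intro c hc
    obtain ⟨hcC, g, hgI, hgc, hu⟩ := Finset.mem_filter.1 hc
    by_cases hg : g ∈ Jun I T1 T2 φ ℓ K
    · refine Finset.mem_union_left _ (Finset.mem_union_left _ (Finset.mem_filter.2
        ⟨hcC, g, hg, ?_⟩))
      ext x
      rw [Finset.mem_inter, Finset.mem_singleton]
      constructor
      · rintro ⟨hx1, hx2⟩
        have hx3 := (Finset.mem_filter.1 hx1).2
        have := hu (g - x) (hTW _ hx3) (by rw [sub_sub_cancel]; exact hx2)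
        rwa [sub_sub_cancel] at this
      · rintro rfl
        exact ⟨Finset.mem_filter.2 ⟨hC hcC, hA g hg _ hgc (by rw [sub_sub_cancel]; exact hcC)⟩,
          hcC⟩
    · by_cases hg1 : K ≤ (T1.filter fun w => φ g - ℓ < φ w).card
      · refine Finset.mem_union_left _ (Finset.mem_union_right _ (Finset.mem_filter.2
          ⟨hcC, g, Finset.mem_filter.2 ⟨hgI, hg1, ?_⟩, hgc, hu⟩))
        exact hone T1 (fun w hw => (m1 w hw).1) g c hu
      · have hg2 : K ≤ (T2.filter fun w => φ w ≤ φ g).card := by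
          by_contra hg2
          exact hg (Finset.mem_filter.2 ⟨hgI, not_le.1 hg1, not_le.1 hg2⟩)
        refine Finset.mem_union_right _ (Finset.mem_filter.2
          ⟨hcC, g, Finset.mem_filter.2 ⟨hgI, hg2, ?_⟩, hgc, hu⟩)
        exact hone T2 (fun w hw => (m2 w hw).1) g c hu
  have e1 := card_part C W E1
  have e2 := card_part C W E2
  calc (UC I C W).card ≤ _ := Finset.card_le_card hsub
    _ ≤ _ := Finset.card_union_le _ _
    _ ≤ _ := Nat.add_le_add_right (Finset.card_union_le _ _) _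
    _ ≤ v + 2 * (m * K * K) := by omega

end Pool.Agent.E8helper14.MC
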